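import Pool.Agent.Y365.FS.Sph
import Pool.Agent.W497.FS.Far

/-!
# Weighted Charney-Davis quantities: reduction to the links of the heavy faces
-/

set_option autoImplicit false
set_option linter.unusedVariables false
set_option linter.unusedSectionVars false

namespace Pool.Agent.Q288.CW

open Pool.Agent.W497.FS Y365.FS

section general

variable {β : Type*} [DecidableEq β]

/-- The conditions on the orders `N σ` of the Coxeter groups `W_σ` of the faces, with the edge
weights `w e`: (1) `N ∅ = 1`, (2) `N {v} = 2`, (3) `N e = 2 w e` for each edge `e`, (4)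
`N (A ∪ B) = N A * N B` if `A ∪ B` is a face and all edges between `A` and `B` have weight `2`, (5)
for each face `T` with at least three vertices which is connected by edges of weight at least `3`,
the sum of the `(-1/2)^|T \ U| / N U` over `U ⊆ T` is zero if `|T|` is odd and has the sign
`(-1)^j`, or is zero, if `|T| = 2 j`. -/
structure Orders (F : Finset (Finset β)) (w : Finset β → ℕ) (N : Finset β → ℚ) : Prop where
  two_le : ∀ e ∈ F, e.card = 2 → 2 ≤ w e
  empty : N ∅ = 1
  single : ∀ v, {v} ∈ F → N {v} = 2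
  edge : ∀ e ∈ F, e.card = 2 → N e = 2 * w e
  mul : ∀ A B : Finset β, Disjoint A B → A ∪ B ∈ F → (∀ a ∈ A, ∀ b ∈ B, w {a, b} = 2) →
    N (A ∪ B) = N A * N B
  sign : ∀ T ∈ F, 3 ≤ T.card →
    (∀ A ⊆ T, A.Nonempty → A ≠ T → ∃ a ∈ A, ∃ b ∈ T, b ∉ A ∧ w {a, b} ≠ 2) →
    (Odd T.card → ∑ U ∈ T.powerset, (-1 / 2) ^ (T.card - U.card) / N U = 0) ∧
    ∀ j, T.card = 2 * j → 0 ≤ (-1) ^ j * ∑ U ∈ T.powerset, (-1 / 2) ^ (T.card - U.card) / N U

theorem Orders.good {F : Finset (Finset β)} {w : Finset β → ℕ} {N : Finset β → ℚ}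
    (h : Orders F w N) (hF : ∀ T ∈ F, ∀ U ⊆ T, U ∈ F) : GoodOrders F N :=
  goodOrders_of hF w h.two_le N h.empty h.single h.edge h.mul h.sign

/-- every vertex of `T` lies in an edge of weight at least `3` inside `T` -/
def Heavy (w : Finset β → ℕ) (T : Finset β) : Prop := ∀ v ∈ T, ∃ u ∈ T, u ≠ v ∧ w {v, u} ≠ 2

theorem Orders.bN_light {F : Finset (Finset β)} {w : Finset β → ℕ} {N : Finset β → ℚ}
    (h : Orders F w N) (hF : ∀ T ∈ F, ∀ U ⊆ T, U ∈ F) {T : Finset β} (hT : T ∈ F)
    (hl : ¬ Heavy w T) : bN N T = 0 := by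
  unfold Heavy at hl
  push Not at hl
  obtain ⟨v, hv, hl⟩ := hl
  have hun : {v} ∪ T.erase v = T := by
    rw [← Finset.insert_eq, Finset.insert_erase hv]
  have hd : Disjoint {v} (T.erase v) := by
    rw [Finset.disjoint_singleton_left]
    exact Finset.notMem_erase v T
  have hvF : ({v} : Finset β) ∈ F := hF T hT _ (Finset.singleton_subset_iff.2 hv)
  have h0 : bN N {v} = 0 := by
    have e1 : ({v} : Finset β) = insert v ∅ := rfl
    rw [bN, e1, Finset.sum_powerset_insert (Finset.notMem_empty v)]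
    have e2 : insert v (∅ : Finset β) = {v} := rfl
    simp only [Finset.powerset_empty, Finset.sum_singleton, e2, Finset.card_singleton,
      Finset.card_empty, h.empty, h.single v hvF]
    norm_num
  have hb := bN_union hd N (fun U hU V hV => by
    refine h.mul U V (Finset.disjoint_of_subset_left hU (Finset.disjoint_of_subset_right hV hd))
      (hF T hT _ ?_) ?_
    · rw [← hun]
      exact Finset.union_subset_union hU hV
    · intro a ha b hb
      obtain rfl := Finset.mem_singleton.1 (hU ha)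
      have hb' := Finset.mem_erase.1 (hV hb)
      exact hl b hb'.2 hb'.1)
  rw [hun, h0, zero_mul] at hb
  exact hb

end general

variable {α : Type} [DecidableEq α] {H : SimpleGraph α}

/-- the weighted quantity is at least the right-angled one if the links of the nonempty heavy
faces satisfy the Charney-Davis inequality -/
theorem weighted_ge {m : ℕ} {W : Finset α} {N : Finset α → ℚ} (hN : GoodOrders (cl H W) N)
    (h0 : N ∅ = 1) (hle : ∀ T ∈ cl H W, T.card ≤ 2 * m)
    (h : ∀ T ∈ cl H W, T.Nonempty → bN N T ≠ 0 → ∀ j l, T.card = 2 * j → m = j + l →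
      0 ≤ (-1) ^ l * lam H (lkF H W T)) :
    (-1) ^ m * lam H W ≤ (-1) ^ m * ∑ σ ∈ cl H W, (-1) ^ σ.card / N σ := by
  rw [weighted_eq, Finset.mul_sum]
  have he : (∅ : Finset α) ∈ cl H W := empty_mem_cl
  have hlk0 : lkF H W ∅ = W := by
    ext x; rw [mem_lkF]; simp
  have hb0 : bN N (∅ : Finset α) = 1 := by simp [bN, h0]
  rw [← Finset.add_sum_erase _ _ he, hlk0, hb0, Finset.card_empty, pow_zero, one_mul, one_mul]
  have key : 0 ≤ ∑ T ∈ (cl H W).erase ∅, (-1 : ℚ) ^ m * ((-1) ^ T.card * bN N T *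
      lam H (lkF H W T)) := by
    refine Finset.sum_nonneg fun T hT => ?_
    obtain ⟨hTne, hT⟩ := Finset.mem_erase.1 hT
    by_cases hb : bN N T = 0
    · rw [hb]; simp
    rcases Nat.even_or_odd T.card with ⟨j, hj⟩ | ho
    · have hc := hle T hT
      obtain ⟨l, hl⟩ : ∃ l, m = j + l := ⟨m - j, by omega⟩
      have h1 := (hN T hT).2 j (by omega)
      have h2 := h T hT (Finset.nonempty_iff_ne_empty.2 hTne) hb j l (by omega) hl
      have h3 : (-1 : ℚ) ^ m * ((-1) ^ T.card * bN N T * lam H (lkF H W T)) =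
          ((-1) ^ j * bN N T) * ((-1) ^ l * lam H (lkF H W T)) := by
        have h4 : (-1 : ℚ) ^ T.card = 1 := by rw [hj]; exact Even.neg_one_pow ⟨j, rfl⟩
        rw [hl, h4, pow_add]; ring
      rw [h3]
      exact mul_nonneg h1 h2
    · exact absurd ((hN T hT).1 ho) hb
  linarith

variable {k : Type} [Field k] {n : ℕ} {S : Finset (Finset (Fin n))}

theorem link_eq_cl {d : ℕ} (hS : IsFlagSphere k d S) {T : Finset (Fin n)} (hT : T ∈ S) :
    link S T = cl (skel S) (lkF (skel S) (vert S) T) := by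
  have hcl := hS.cl_eq
  have hT' : T ∈ cl (skel S) (vert S) := by rwa [hcl]
  conv_lhs => rw [← hcl]
  ext G
  rw [link, Finset.mem_filter]
  constructor
  · rintro ⟨h1, h2, h3⟩
    obtain ⟨h4, h5⟩ := mem_cl.1 h3
    refine mem_cl.2 ⟨fun x hx => mem_lkF.2 ⟨h4 (Finset.mem_union_left _ hx), fun y hy => ?_⟩,
      (mem_cl.1 h1).2⟩
    exact h5 y (Finset.mem_union_right _ hy) x (Finset.mem_union_left _ hx)
      (fun h => Finset.disjoint_left.1 h2 hx (h ▸ hy))
  · intro h
    refine ⟨cl_mono (fun x hx => (mem_lkF.1 hx).1) h, (disjoint_of_mem_cl_lkF h).symm, ?_⟩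
    rw [Finset.union_comm]
    exact union_mem_cl hT' h

theorem omega_link {d : ℕ} (hS : IsFlagSphere k d S) {T : Finset (Fin n)} (hT : T ∈ S) :
    omega (link S T) = lam (skel S) (lkF (skel S) (vert S) T) := by
  rw [omega, lam, fe, link_eq_cl hS hT]
  refine Finset.sum_congr rfl (fun σ _ => ?_)
  rw [← div_pow]

/-- spheres: reduction of the weighted inequality to the links of the heavy faces -/
theorem sphere_ge {m : ℕ} (hS : IsFlagSphere k (2 * m) S) {w : Finset (Fin n) → ℕ}
    {N : Finset (Fin n) → ℚ} (hN : Orders S w N)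
    (h : ∀ T ∈ S, T.Nonempty → Heavy w T → ∀ j l, T.card = 2 * j → m = j + l →
      0 ≤ (-1) ^ l * omega (link S T)) :
    (-1) ^ m * omega S ≤ (-1) ^ m * ∑ σ ∈ S, (-1) ^ σ.card / N σ := by
  have hcl := hS.cl_eq
  have hsub : ∀ F ∈ S, ∀ G ⊆ F, G ∈ S := by
    obtain ⟨r, hr⟩ := hS
    exact fun F hF G hG => hr.1 F hF G hG
  have hgood : GoodOrders (cl (skel S) (vert S)) N := by
    rw [hcl]
    exact hN.good hsub
  have h1 := weighted_ge (m := m) hgood hN.empty (by rw [hcl]; exact hS.card_le)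
    (by
      intro T hT hne hb j l hj hl
      rw [hcl] at hT
      rw [← omega_link hS hT]
      refine h T hT hne ?_ j l hj hl
      by_contra hh
      exact hb (hN.bN_light hsub hT hh))
  rw [hcl] at h1
  rwa [hS.omega_eq]

end Pool.Agent.Q288.CW
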